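import Pool.Agent.Work.MP_1b9dce_gt.Main
import Pool.Agent.Work.MP_1b9dce_gt.Unbundle

/-! The rational rank of `A(S, φ)` is unbounded.  `S` is a connected finite cover of the once
punctured torus, `φ` an orientation preserving homeomorphism without periodic non peripheral
free homotopy class; the values on `π₁` of the mapping torus of the minimum point of the
dilatation on the fibered face span `A(S, φ)` over `ℚ`. -/

open Pool.Agent.Work.MP_1b9dce_gt

theorem Pool.Agent.Results.MP_1b9dce_gt.Unbounded.result (k : ℕ) :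
    ∃ (S : Type) (_ : TopologicalSpace S) (P : S → T0) (φ : S ≃ₜ S) (x₀ : S) (h : φ x₀ = x₀),
      IsCoveringMap P ∧ (∀ z, (P ⁻¹' {z}).Finite) ∧ ConnectedSpace S ∧
      (∀ᶠ y in nhds x₀, φ y = y) ∧ NoPer φ h ∧
      RankGE (FundamentalGroup.map (fib φ) x₀).range k := by
  obtain ⟨S, _, P, φ, x₀, h, h1, h2, h3, h4, h5, m, hm, hg⟩ := main k
  exact ⟨S, _, P, φ, x₀, h, h1, h2, h3, h4, h5, m.1, hm.minP, hg⟩
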